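import Pool.Agent.Helper30.LK.St

/-!
# Project LK, module SUR: the number of the surviving integers
-/

set_option autoImplicit false

noncomputable section

namespace Pool.Agent.Helper72.LK

open Finset ArithmeticFunction Filter
open Pool.Agent.Helper30.LK

open Classical in
/-- the integers `s t ≤ M` with `s ∈ S` and `Q t` -/
private def FS (M : ℕ) (S : Finset ℕ) (Q : ℕ → Prop) : Finset ℕ :=
  S.biUnion (fun s => ((Icc 1 (M / s)).filter Q).image (fun t => s * t))

open Classical in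
private lemma card_FS (M : ℕ) (S : Finset ℕ) (Q : ℕ → Prop) (B : ℕ → ℝ)
    (hB : ∀ s ∈ S, (((Icc 1 (M / s)).filter Q).card : ℝ) ≤ B s) :
    ((FS M S Q).card : ℝ) ≤ ∑ s ∈ S, B s := by
  have h1 : (FS M S Q).card ≤ ∑ s ∈ S, ((Icc 1 (M / s)).filter Q).card := by
    unfold FS
    refine card_biUnion_le.trans (Finset.sum_le_sum fun s _ => card_image_le)
  have h2 : ((FS M S Q).card : ℝ) ≤ ∑ s ∈ S, (((Icc 1 (M / s)).filter Q).card : ℝ) := by
    exact_mod_cast h1
  exact h2.trans (Finset.sum_le_sum hB)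

open Classical in
private lemma card_le_div (N : ℕ) (Q : ℕ → Prop) : ((Icc 1 N).filter Q).card ≤ N := by
  refine (card_filter_le _ _).trans ?_
  rw [Nat.card_Icc]
  exact Nat.le_of_eq (Nat.add_sub_cancel _ _)

private lemma mem_FS {M s t : ℕ} {S : Finset ℕ} {Q : ℕ → Prop} (hs : s ∈ S) (hs1 : 1 ≤ s)
    (ht1 : 1 ≤ t) (hst : s * t ≤ M) (hQ : Q t) : s * t ∈ FS M S Q := by
  classical
  unfold FS
  rw [mem_biUnion]
  refine ⟨s, hs, ?_⟩
  rw [mem_image]
  refine ⟨t, ?_, rfl⟩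
  rw [mem_filter, mem_Icc]
  refine ⟨⟨ht1, ?_⟩, hQ⟩
  rw [Nat.le_div_iff_mul_le (by omega)]
  rw [mul_comm]
  exact hst

private lemma large : ∃ X : ℕ, ∀ x : ℕ, X ≤ x → 2 ≤ x ∧ 2 ≤ Real.log x ∧ 1 ≤ Real.log (Real.log x) ∧
    Real.log x ^ 3 ≤ (x : ℝ) ^ (1 / 16 : ℝ) := by
  have t0 : Tendsto (fun x : ℕ => (x : ℝ)) atTop atTop := tendsto_natCast_atTop_atTop
  have t1 : Tendsto (fun x : ℕ => Real.log x) atTop atTop := Real.tendsto_log_atTop.comp t0
  have t2 : Tendsto (fun x : ℕ => Real.log (Real.log x)) atTop atTop := Real.tendsto_log_atTop.comp t1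
  have e3 : ∀ᶠ x : ℝ in atTop, Real.log x ^ 3 ≤ x ^ (1 / 16 : ℝ) := by
    have h := (isLittleO_log_rpow_rpow_atTop (3 : ℝ) (by norm_num : (0 : ℝ) < 1 / 16)).bound one_pos
    filter_upwards [h, eventually_ge_atTop (1 : ℝ)] with x hx h1
    have hl : 0 ≤ Real.log x := Real.log_nonneg h1
    have hx0 : 0 ≤ x := by linarith
    rw [one_mul, Real.norm_of_nonneg (Real.rpow_nonneg hl _),
      Real.norm_of_nonneg (Real.rpow_nonneg hx0 _)] at hx
    have e : Real.log x ^ (3 : ℝ) = Real.log x ^ 3 := by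
      rw [← Real.rpow_natCast]
      norm_num
    rwa [e] at hx
  have h := ((eventually_ge_atTop 2).and ((t1.eventually_ge_atTop 2).and
    ((t2.eventually_ge_atTop 1).and (t0.eventually e3))))
  obtain ⟨X, hX⟩ := eventually_atTop.1 h
  exact ⟨X, hX⟩

private lemma cases_two {t : ℕ} (ht : Squarefree t) (hc : t.primeFactors.card ≤ 2) :
    t = 1 ∨ t.Prime ∨ ∃ p q : ℕ, p.Prime ∧ q.Prime ∧ p ∣ t ∧ q ∣ t ∧ t = p * q := by
  have hp := Nat.prod_primeFactors_of_squarefree ht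
  have h3 : t.primeFactors.card = 0 ∨ t.primeFactors.card = 1 ∨ t.primeFactors.card = 2 := by omega
  rcases h3 with h | h | h
  · left
    rw [card_eq_zero] at h
    rw [← hp, h, prod_empty]
  · right
    left
    obtain ⟨p, hp1⟩ := card_eq_one.1 h
    rw [hp1, prod_singleton] at hp
    have h4 : p ∈ t.primeFactors := by
      rw [hp1]
      exact mem_singleton_self p
    rw [← hp]
    exact Nat.prime_of_mem_primeFactors h4
  · right
    right
    obtain ⟨p, q, hpq, hpq1⟩ := card_eq_two.1 h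
    rw [hpq1, prod_pair hpq] at hp
    have h4 : p ∈ t.primeFactors := by
      rw [hpq1]
      simp
    have h5 : q ∈ t.primeFactors := by
      rw [hpq1]
      simp
    exact ⟨p, q, Nat.prime_of_mem_primeFactors h4, Nat.prime_of_mem_primeFactors h5,
      Nat.dvd_of_mem_primeFactors h4, Nat.dvd_of_mem_primeFactors h5, hp.symm⟩

theorem hSUR (hS : StSTR) (h1 : StCN1) (h3 : StCN3) (hP : StPPP) (hW : StPWF) : StSUR := by
  classical
  obtain ⟨xs, hS⟩ := hS
  obtain ⟨C1, hC1, x1, h1⟩ := h1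
  obtain ⟨C3, hC3, x3, h3⟩ := h3
  obtain ⟨CP, hCP, xP, hP⟩ := hP
  obtain ⟨CW, hCW, -, hW⟩ := hW
  obtain ⟨X, hX⟩ := large
  refine ⟨1 + C3 + CP + 2 * C1 * CW + CW, by positivity, max (max xs x1) (max (max x3 xP) X), ?_⟩
  intro x M hx hxM hM
  have hxs : xs ≤ x := (le_max_left _ _).trans ((le_max_left _ _).trans hx)
  have hx1 : x1 ≤ x := (le_max_right _ _).trans ((le_max_left _ _).trans hx)
  have hx3 : x3 ≤ x := (le_max_left _ _).trans ((le_max_left _ _).trans ((le_max_right _ _).trans hx))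
  have hxP : xP ≤ x := (le_max_right _ _).trans ((le_max_left _ _).trans ((le_max_right _ _).trans hx))
  have hxX : X ≤ x := (le_max_right _ _).trans ((le_max_right _ _).trans hx)
  obtain ⟨hx2, hL2, hLL, hL3⟩ := hX x hxX
  set L : ℝ := Real.log x with hL
  have hL0 : 0 < L := by linarith
  have hM2 : 2 ≤ M := hx2.trans hxM
  have hM0 : (0 : ℝ) < M := by
    have : 0 < M := by omega
    exact_mod_cast this
  have hM1 : (1 : ℝ) ≤ M := by
    have : 1 ≤ M := by omega
    exact_mod_cast this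
  have hx0 : (0 : ℝ) < x := by
    have : 0 < x := by omega
    exact_mod_cast this
  have hx1' : (1 : ℝ) ≤ x := by
    have : 1 ≤ x := by omega
    exact_mod_cast this
  have hxM' : (x : ℝ) ≤ M := by exact_mod_cast hxM
  have hL4 : (1 : ℝ) ≤ L ^ 4 := one_le_pow₀ (by linarith)
  -- the sets
  set S1 : Finset ℕ := (Icc 1 M).filter (fun s => (Pw s ∧ L ^ 4 < (s : ℝ)) ∧ (s : ℝ) ≤ (M : ℝ) ^ (1 / 8 : ℝ))
    with hS1
  set S2 : Finset ℕ := (Icc 1 M).filter (fun s => Pw s ∧ (M : ℝ) ^ (1 / 8 : ℝ) < (s : ℝ)) with hS2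
  have hsub : Sv x M ⊆ (({1} ∪ (Icc 1 M).filter (fun p => Al3 x p)) ∪
      (Icc 1 M).filter (fun m => ∃ p p' : ℕ, Al x p ∧ Al x p' ∧ m = p * p')) ∪
      (FS M S1 (fun t => ∀ l : ℕ, l.Prime → l ∣ t → (x : ℝ) ^ (2 / 5 : ℝ) ≤ l) ∪
       FS M S2 (fun _ => True)) := by
    intro m hm
    obtain ⟨s, t, hmst, -, hPw, hsq, hs1, hpt, ht3, hcard⟩ := hS x M m hxs hM hm
    have hmI : m ∈ Icc 1 M := by
      unfold Sv at hm
      exact (mem_filter.1 hm).1
    have hmI' := mem_Icc.1 hmI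
    have hs0 : 1 ≤ s := by
      rcases Nat.eq_zero_or_pos s with h | h
      · rw [h, zero_mul] at hmst
        omega
      · exact h
    have ht0 : 1 ≤ t := by
      rcases Nat.eq_zero_or_pos t with h | h
      · rw [h, mul_zero] at hmst
        omega
      · exact h
    have hsM : s ≤ M := by
      have : s * 1 ≤ s * t := Nat.mul_le_mul_left s ht0
      omega
    have hstM : s * t ≤ M := by
      rw [← hmst]
      exact hmI'.2
    rcases hs1 with hs1 | hs1
    · rw [hs1, one_mul] at hmst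
      rw [mem_union, mem_union, mem_union]
      left
      rcases cases_two hsq hcard with h | h | ⟨p, q, hp, hq, hpt', hqt', hpq⟩
      · left
        left
        rw [mem_singleton, hmst, h]
      · left
        right
        rw [mem_filter]
        refine ⟨hmI, ?_⟩
        rw [hmst]
        exact ht3 hs1 h
      · right
        rw [mem_filter]
        exact ⟨hmI, p, q, (hpt p hp hpt').1, (hpt q hq hqt').1, by rw [hmst, hpq]⟩
    · rw [mem_union]
      right
      rw [mem_union]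
      by_cases hsb : (s : ℝ) ≤ (M : ℝ) ^ (1 / 8 : ℝ)
      · left
        rw [hmst]
        refine mem_FS ?_ hs0 ht0 hstM ?_
        · rw [hS1, mem_filter, mem_Icc]
          exact ⟨⟨hs0, hsM⟩, ⟨hPw, hs1⟩, hsb⟩
        · intro l hl hlt
          exact (hpt l hl hlt).2
      · right
        rw [hmst]
        refine mem_FS ?_ hs0 ht0 hstM trivial
        rw [hS2, mem_filter, mem_Icc]
        exact ⟨⟨hs0, hsM⟩, hPw, not_le.1 hsb⟩
  -- the counts
  have c3 := h3 x M hx3 hxM hM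
  have cP := hP x M hxP hxM hM
  have hM8 : (1 : ℝ) ≤ (M : ℝ) ^ (1 / 8 : ℝ) := Real.one_le_rpow hM1 (by norm_num)
  have cS1 : ((FS M S1 (fun t => ∀ l : ℕ, l.Prime → l ∣ t → (x : ℝ) ^ (2 / 5 : ℝ) ≤ l)).card : ℝ) ≤
      2 * C1 * CW * (M / L ^ 3) := by
    have hB := card_FS M S1 (fun t => ∀ l : ℕ, l.Prime → l ∣ t → (x : ℝ) ^ (2 / 5 : ℝ) ≤ l)
      (fun s => 2 * C1 * M / L * (1 / s)) (by
        intro s hs
        rw [hS1, mem_filter, mem_Icc] at hs
        obtain ⟨⟨hs0, hsM⟩, ⟨-, hs4⟩, hs8⟩ := hs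
        have hs0' : (0 : ℝ) < s := by exact_mod_cast hs0
        have hs1' : (1 : ℝ) < s := lt_of_le_of_lt hL4 hs4
        have hs2 : 2 ≤ s := by
          have : 1 < s := by exact_mod_cast hs1'
          omega
        have hsM' : (s : ℝ) ≤ M := by exact_mod_cast hsM
        have hy1 : (x : ℝ) ^ (7 / 8 : ℝ) ≤ ((M / s + 1 : ℕ) : ℝ) := by
          have e1 : (x : ℝ) ^ (7 / 8 : ℝ) ≤ (M : ℝ) ^ (7 / 8 : ℝ) :=
            Real.rpow_le_rpow hx0.le hxM' (by norm_num)
          have e2 : (M : ℝ) ^ (7 / 8 : ℝ) * (M : ℝ) ^ (1 / 8 : ℝ) = M := by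
            rw [← Real.rpow_add hM0]
            norm_num
          have e3 : M < s * (M / s + 1) := Nat.lt_mul_div_succ M (by omega)
          have e4 : (M : ℝ) < s * ((M / s + 1 : ℕ) : ℝ) := by exact_mod_cast e3
          have e5 : (M : ℝ) ^ (7 / 8 : ℝ) * s ≤ (s : ℝ) * ((M / s + 1 : ℕ) : ℝ) := by
            calc (M : ℝ) ^ (7 / 8 : ℝ) * s ≤ (M : ℝ) ^ (7 / 8 : ℝ) * (M : ℝ) ^ (1 / 8 : ℝ) :=
                  mul_le_mul_of_nonneg_left hs8 (Real.rpow_nonneg hM0.le _)
              _ = M := e2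
              _ ≤ _ := e4.le
          have e6 : (M : ℝ) ^ (7 / 8 : ℝ) ≤ ((M / s + 1 : ℕ) : ℝ) := by
            rw [mul_comm] at e5
            exact le_of_mul_le_mul_left e5 hs0'
          exact e1.trans e6
        have hy2 : ((M / s + 1 : ℕ) : ℝ) ≤ (x : ℝ) ^ (2 : ℝ) := by
          have e1 : M / s + 1 ≤ M := by
            have : M / s ≤ M / 2 := Nat.div_le_div_left hs2 (by norm_num)
            omega
          have e2 : ((M / s + 1 : ℕ) : ℝ) ≤ M := by exact_mod_cast e1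
          exact e2.trans (hM.trans (Real.rpow_le_rpow_of_exponent_le hx1' (by norm_num)))
        have c1 := h1 x (M / s + 1) hx1 hy1 hy2
        have hsub1 : ((Icc 1 (M / s)).filter
            (fun t => ∀ l : ℕ, l.Prime → l ∣ t → (x : ℝ) ^ (2 / 5 : ℝ) ≤ l)).card ≤
            ((Icc 1 (M / s + 1)).filter
            (fun t => ∀ l : ℕ, l.Prime → l ∣ t → (x : ℝ) ^ (2 / 5 : ℝ) ≤ l)).card :=
          card_le_card (filter_subset_filter _ (Icc_subset_Icc_right (by omega)))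
        have hsub2 : (((Icc 1 (M / s)).filter
            (fun t => ∀ l : ℕ, l.Prime → l ∣ t → (x : ℝ) ^ (2 / 5 : ℝ) ≤ l)).card : ℝ) ≤
            ((Icc 1 (M / s + 1)).filter
            (fun t => ∀ l : ℕ, l.Prime → l ∣ t → (x : ℝ) ^ (2 / 5 : ℝ) ≤ l)).card := by
          exact_mod_cast hsub1
        refine hsub2.trans (c1.trans ?_)
        have hy3 : ((M / s + 1 : ℕ) : ℝ) ≤ 2 * (M / s) := by
          have e1 : ((M / s : ℕ) : ℝ) ≤ (M : ℝ) / s := Nat.cast_div_le
          have e2 : (1 : ℝ) ≤ (M : ℝ) / s := (one_le_div hs0').2 hsM'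
          push_cast
          linarith
        have e9 : C1 * (((M / s + 1 : ℕ) : ℝ) / L) ≤ C1 * (2 * ((M : ℝ) / s) / L) :=
          mul_le_mul_of_nonneg_left (div_le_div_of_nonneg_right hy3 hL0.le) hC1.le
        refine e9.trans (le_of_eq ?_)
        field_simp)
    refine hB.trans ?_
    rw [← Finset.mul_sum]
    have hw := hW M (L ^ 4) hL4
    have hsum : ∑ s ∈ S1, (1 : ℝ) / s ≤ CW / √(L ^ 4) := by
      refine le_trans ?_ hw
      refine Finset.sum_le_sum_of_subset_of_nonneg ?_ (fun _ _ _ => by positivity)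
      intro s hs
      rw [hS1, mem_filter] at hs
      rw [mem_filter]
      exact ⟨hs.1, hs.2.1⟩
    have hsq : √(L ^ 4) = L ^ 2 := by
      have : L ^ 4 = (L ^ 2) ^ 2 := by ring
      rw [this]
      exact Real.sqrt_sq (by positivity)
    rw [hsq] at hsum
    calc 2 * C1 * M / L * ∑ s ∈ S1, (1 : ℝ) / s ≤ 2 * C1 * M / L * (CW / L ^ 2) :=
          mul_le_mul_of_nonneg_left hsum (by positivity)
      _ = 2 * C1 * CW * (M / L ^ 3) := by
          field_simp
  have cS2 : ((FS M S2 (fun _ => True)).card : ℝ) ≤ CW * (M / L ^ 3) := by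
    have hB := card_FS M S2 (fun _ => True) (fun s => (M : ℝ) * (1 / s)) (by
        intro s hs
        refine le_trans (b := ((M / s : ℕ) : ℝ)) ?_ ?_
        · exact Nat.cast_le.2 (card_le_div (M / s) (fun _ => True))
        · have e3 : ((M / s : ℕ) : ℝ) ≤ (M : ℝ) / s := Nat.cast_div_le
          refine e3.trans (le_of_eq ?_)
          ring)
    refine hB.trans ?_
    rw [← Finset.mul_sum]
    have hw := hW M ((M : ℝ) ^ (1 / 8 : ℝ)) hM8
    have hsq : √((M : ℝ) ^ (1 / 8 : ℝ)) = (M : ℝ) ^ (1 / 16 : ℝ) := by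
      rw [Real.sqrt_eq_rpow, ← Real.rpow_mul hM0.le]
      norm_num
    rw [hsq] at hw
    have e5 : L ^ 3 ≤ (M : ℝ) ^ (1 / 16 : ℝ) :=
      hL3.trans (Real.rpow_le_rpow hx0.le hxM' (by norm_num))
    have e6 : CW / (M : ℝ) ^ (1 / 16 : ℝ) ≤ CW / L ^ 3 :=
      div_le_div_of_nonneg_left hCW.le (by positivity) e5
    calc (M : ℝ) * ∑ s ∈ S2, (1 : ℝ) / s ≤ M * (CW / L ^ 3) :=
          mul_le_mul_of_nonneg_left (hw.trans e6) hM0.le
      _ = CW * (M / L ^ 3) := by ring
  -- the total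
  have hcard : ((Sv x M).card : ℝ) ≤ (((1 + (((Icc 1 M).filter (fun p => Al3 x p)).card : ℝ)) +
      (((Icc 1 M).filter (fun m => ∃ p p' : ℕ, Al x p ∧ Al x p' ∧ m = p * p')).card : ℝ)) +
      (((FS M S1 (fun t => ∀ l : ℕ, l.Prime → l ∣ t → (x : ℝ) ^ (2 / 5 : ℝ) ≤ l)).card : ℝ) +
       ((FS M S2 (fun _ => True)).card : ℝ))) := by
    have h := card_le_card hsub
    have h' := (h.trans (card_union_le _ _)).trans (Nat.add_le_add ((card_union_le _ _).trans
      (Nat.add_le_add_right (card_union_le _ _) _)) (card_union_le _ _))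
    rw [card_singleton] at h'
    exact_mod_cast h'
  have hpos : 0 < (M : ℝ) / L ^ 3 := by positivity
  have hLM : (M : ℝ) / L ^ 3 ≤ M * Real.log L / L ^ 3 := by
    apply div_le_div_of_nonneg_right _ (by positivity)
    nlinarith
  have hone : 1 ≤ (M : ℝ) / L ^ 3 := by
    rw [one_le_div (by positivity)]
    refine hL3.trans ?_
    refine le_trans ?_ hxM'
    calc (x : ℝ) ^ (1 / 16 : ℝ) ≤ (x : ℝ) ^ (1 : ℝ) := Real.rpow_le_rpow_of_exponent_le hx1' (by norm_num)
      _ = x := Real.rpow_one _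
  set W : ℝ := M * Real.log L / L ^ 3 with hWd
  have f1 : CP * (M / L ^ 3) ≤ CP * W := mul_le_mul_of_nonneg_left hLM hCP.le
  have f2 : 2 * C1 * CW * (M / L ^ 3) ≤ 2 * C1 * CW * W := mul_le_mul_of_nonneg_left hLM (by positivity)
  have f3 : CW * (M / L ^ 3) ≤ CW * W := mul_le_mul_of_nonneg_left hLM hCW.le
  have f4 : (1 : ℝ) ≤ W := hone.trans hLM
  have f5 : (1 + C3 + CP + 2 * C1 * CW + CW) * W = W + C3 * W + CP * W + 2 * C1 * CW * W + CW * W := by ring
  rw [f5]
  linarith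

end Pool.Agent.Helper72.LK
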